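import Pool.Agent.N463.MI.Stm

/-!
Project MI (helper463), part H04: partitions into distinct parts as coefficients.
Lean proof: helper768.
-/

set_option autoImplicit false

open Finset

noncomputable section

namespace Pool.Agent.N768.MI.H04

open Pool.Agent.N463.MI

/-- the factors of high index are `1` modulo `X ^ (n + 1)` -/
lemma high (n : ℕ) (t : Finset ℕ) (ht : ∀ i ∈ t, n ≤ i) : ∃ g : PowerSeries ℤ,
    ∏ i ∈ t, (∑ j ∈ range 2, (PowerSeries.X : PowerSeries ℤ) ^ ((i + 1) * j)) =
      1 + PowerSeries.X ^ (n + 1) * g := by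
  induction t using Finset.induction_on with
  | empty => exact ⟨0, by simp⟩
  | insert a s ha ih =>
    obtain ⟨g, hg⟩ := ih fun i hi => ht i (mem_insert_of_mem hi)
    have han : n ≤ a := ht a (mem_insert_self a s)
    obtain ⟨k, rfl⟩ := Nat.exists_eq_add_of_le han
    rw [prod_insert ha, hg, sum_range_succ, sum_range_one]
    refine ⟨g + PowerSeries.X ^ k * (1 + PowerSeries.X ^ (n + 1) * g), ?_⟩
    rw [mul_zero, pow_zero, mul_one, show n + k + 1 = (n + 1) + k by ring, pow_add]
    ring

lemma coeff_high (n : ℕ) (s : Finset ℕ) (hs : range n ⊆ s) :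
    PowerSeries.coeff n (∏ i ∈ s, (∑ j ∈ range 2, (PowerSeries.X : PowerSeries ℤ) ^ ((i + 1) * j)))
      = PowerSeries.coeff n
        (∏ i ∈ range n, (∑ j ∈ range 2, (PowerSeries.X : PowerSeries ℤ) ^ ((i + 1) * j))) := by
  classical
  obtain ⟨g, hg⟩ := high n (s \ range n) (fun i hi => by
    rw [mem_sdiff, mem_range] at hi
    exact not_lt.1 hi.2)
  rw [← prod_sdiff hs, hg, add_mul, one_mul, map_add, mul_assoc, PowerSeries.coeff_X_pow_mul']
  simp

open PowerSeries.WithPiTopology in
theorem t_H04 : H04 := by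
  intro n
  have h1 := Nat.Partition.hasProd_powerSeriesMk_card_countRestricted ℤ (m := 2) (by norm_num)
  have h2 := (PowerSeries.WithPiTopology.continuous_coeff ℤ n).tendsto
    (PowerSeries.mk fun n => ((Nat.Partition.countRestricted n 2).card : ℤ))
  have h3 := h2.comp h1
  have h4 : Filter.Tendsto (fun s : Finset ℕ => PowerSeries.coeff n
      (∏ i ∈ s, (∑ j ∈ range 2, (PowerSeries.X : PowerSeries ℤ) ^ ((i + 1) * j))))
      Filter.atTop (nhds (PowerSeries.coeff n
        (∏ i ∈ range n, (∑ j ∈ range 2, (PowerSeries.X : PowerSeries ℤ) ^ ((i + 1) * j))))) := by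
    refine tendsto_const_nhds.congr' ?_
    filter_upwards [Filter.eventually_ge_atTop (range n)] with s hs
    exact (coeff_high n s hs).symm
  have h5 := tendsto_nhds_unique h3 h4
  rw [PowerSeries.coeff_mk, Nat.Partition.countRestricted_two] at h5
  rw [h5, qq, dpoly, ← Polynomial.coeff_coe]
  congr 1
  rw [← Polynomial.coeToPowerSeries.ringHom_apply, map_prod]
  refine prod_congr rfl fun i _ => ?_
  rw [Polynomial.coeToPowerSeries.ringHom_apply]
  simp [sum_range_succ]

end Pool.Agent.N768.MI.H04

end
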